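import Mathlib
import Pool.Agent.Helper206.BoxS.Core

/-!
# Polyhedral 3-spheres in `ℝ⁴` built from boxes

If a polyhedral 3-manifold in `ℝ⁴` is homeomorphic to the 3-sphere and all its facets are
rectangular boxes, then any two adjacent facets lie in orthogonal 3-flats or in a common 3-flat.
The facets need not meet face to face.
-/

noncomputable section

namespace Pool.Agent.Results.MP_d9a4ca_co.BoxSphere

open Pool.Agent.Helper206.BoxS

/-- Let `b` be a finite family of rectangular boxes in `ℝ⁴` with pairwise disjoint relative
interiors whose union is homeomorphic to the 3-sphere. Then any two adjacent boxes of the family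
(intersecting in a set of positive area) lie in one common 3-flat or in orthogonal 3-flats. -/
theorem result {ι : Type} (b : ι → Box) (hb : IsBoxSphere b) (i j : ι) (hij : i ≠ j)
    (hadj : Adjacent (b i) (b j)) :
    (b i).flat = (b j).flat ∨ OrthFlats (b i).flat (b j).flat :=
  main b hb i j hij hadj

end Pool.Agent.Results.MP_d9a4ca_co.BoxSphere
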